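import Mathlib

/-!
# Crossed products, strictly outer actions and ergodic cocycle perturbations (discrete groups)

The definitions used in the statement about `MP_418a80_an`. An action of a discrete group `G` on a
von Neumann algebra `M` of operators on `H` is given by maps `α g` on operators, of which only the
values on `M` matter.
-/

set_option autoImplicit false

open scoped InnerProductSpace

namespace Pool.Agent.V7H46.ECP

universe u v w

section general

variable {H : Type u} [NormedAddCommGroup H] [InnerProductSpace ℂ H] [CompleteSpace H]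

/-- The normal positive functional `x ↦ ∑ₖ ⟪ξₖ, x ξₖ⟫` on operators. -/
noncomputable def vecFun (ξ : ℕ → H) (x : H →L[ℂ] H) : ℂ := ∑' k, ⟪ξ k, x (ξ k)⟫_ℂ

/-- `M` is a II₁ factor: its center consists of the scalars, it is infinite dimensional, and it has
a faithful normal tracial state `τ = vecFun ξ` (with `∑ₖ ‖ξₖ‖²` finite). -/
structure IsIIOneFactor (M : VonNeumannAlgebra H) : Prop where
  center : ∀ z ∈ M, (∀ x ∈ M, z * x = x * z) → ∃ c : ℂ, z = c • (1 : H →L[ℂ] H)
  infinite : ∃ f : ℕ → (H →L[ℂ] H), (∀ n, f n ∈ M) ∧ LinearIndependent ℂ f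
  trace : ∃ ξ : ℕ → H, Summable (fun k => ‖ξ k‖ ^ 2) ∧ vecFun ξ 1 = 1 ∧
    (∀ x ∈ M, ∀ y ∈ M, vecFun ξ (x * y) = vecFun ξ (y * x)) ∧
    ∀ x ∈ M, vecFun ξ (star x * x) = 0 → x = 0

/-- The von Neumann algebra generated by a set of operators: the bicommutant of the set and its
adjoints. -/
noncomputable def vnGen (S : Set (H →L[ℂ] H)) : VonNeumannAlgebra H where
  toStarSubalgebra := StarSubalgebra.centralizer ℂ
    (StarSubalgebra.centralizer ℂ S : Set (H →L[ℂ] H))
  centralizer_centralizer' := by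
    show Set.centralizer (Set.centralizer ((StarSubalgebra.centralizer ℂ
      (StarSubalgebra.centralizer ℂ S : Set (H →L[ℂ] H)) : StarSubalgebra ℂ (H →L[ℂ] H)) :
        Set (H →L[ℂ] H))) = ((StarSubalgebra.centralizer ℂ
      (StarSubalgebra.centralizer ℂ S : Set (H →L[ℂ] H)) : StarSubalgebra ℂ (H →L[ℂ] H)) :
        Set (H →L[ℂ] H))
    rw [StarSubalgebra.coe_centralizer_centralizer, Set.centralizer_centralizer_centralizer]

end general

section crossed

variable {H : Type u} [NormedAddCommGroup H] [InnerProductSpace ℂ H] [CompleteSpace H]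
variable {K : Type v} [NormedAddCommGroup K] [InnerProductSpace ℂ K] [CompleteSpace K]
variable {G : Type w} [Group G]

/-- `α` is an action of the discrete group `G` on the von Neumann algebra `M`: a homomorphism from
`G` to the group of star automorphisms of `M` (these are automatically normal). -/
structure IsAction (M : VonNeumannAlgebra H) (α : G → (H →L[ℂ] H) → (H →L[ℂ] H)) : Prop where
  mem : ∀ g, ∀ x ∈ M, α g x ∈ M
  act_one : ∀ x ∈ M, α 1 x = x
  act_mul : ∀ g h, ∀ x ∈ M, α (g * h) x = α g (α h x)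
  map_add : ∀ g, ∀ x ∈ M, ∀ y ∈ M, α g (x + y) = α g x + α g y
  map_mul : ∀ g, ∀ x ∈ M, ∀ y ∈ M, α g (x * y) = α g x * α g y
  map_smul : ∀ g (c : ℂ), ∀ x ∈ M, α g (c • x) = c • α g x
  map_star : ∀ g, ∀ x ∈ M, α g (star x) = star (α g x)

/-- `(K, J)` is a model of the Hilbert space `ℓ²(G, H)`, where `J g ξ` stands for the family with
value `ξ` at `g` and `0` elsewhere: the `J g` are isometries with pairwise orthogonal ranges, and
only `0` is orthogonal to all the ranges. -/
structure IsEllTwo (J : G → (H →L[ℂ] K)) : Prop where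
  inner_self : ∀ g ξ η, ⟪J g ξ, J g η⟫_ℂ = ⟪ξ, η⟫_ℂ
  inner_ne : ∀ g h, g ≠ h → ∀ ξ η, ⟪J g ξ, J h η⟫_ℂ = 0
  total : ∀ x, (∀ g ξ, ⟪J g ξ, x⟫_ℂ = 0) → x = 0

/-- `P` is the operator `π(x)` on `ℓ²(G, H)`: `(π(x) ξ)(h) = α_{h⁻¹}(x) ξ(h)`. (It exists for every
action and every `x` in `M`, see `exists_isPi`.) -/
def IsPi (J : G → (H →L[ℂ] K)) (α : G → (H →L[ℂ] H) → (H →L[ℂ] H)) (x : H →L[ℂ] H)
    (P : K →L[ℂ] K) : Prop :=
  ∀ h ξ, P (J h ξ) = J h (α h⁻¹ x ξ)

/-- `L` is the operator `λ(g)` on `ℓ²(G, H)`: `(λ(g) ξ)(h) = ξ(g⁻¹ h)`. -/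
def IsLam (J : G → (H →L[ℂ] K)) (g : G) (L : K →L[ℂ] K) : Prop :=
  ∀ h ξ, L (J h ξ) = J (g * h) ξ

/-- The von Neumann crossed product `M ⋊_α G` of `M` by an action `α` of the discrete group `G`,
on a model `(K, J)` of `ℓ²(G, H)`: the von Neumann algebra generated by `π(M)` and `λ(G)`. -/
noncomputable def crossedProduct (J : G → (H →L[ℂ] K)) (M : VonNeumannAlgebra H)
    (α : G → (H →L[ℂ] H) → (H →L[ℂ] H)) : VonNeumannAlgebra K :=
  vnGen ({P | ∃ x ∈ M, IsPi J α x P} ∪ {L | ∃ g, IsLam J g L})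

/-- The relative commutant of `π(M)` in `M ⋊_α G` consists of the scalars. -/
def TrivialRelativeCommutant (J : G → (H →L[ℂ] K)) (M : VonNeumannAlgebra H)
    (α : G → (H →L[ℂ] H) → (H →L[ℂ] H)) : Prop :=
  ∀ T ∈ crossedProduct J M α, (∀ x ∈ M, ∀ P, IsPi J α x P → T * P = P * T) →
    ∃ c : ℂ, T = c • (1 : K →L[ℂ] K)

end crossed

section crossed2

variable {H : Type u} [NormedAddCommGroup H] [InnerProductSpace ℂ H] [CompleteSpace H]
variable {G : Type u} [Group G]

/-- The action `α` of the discrete group `G` on `M` is strictly outer: the relative commutant of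
`π(M)` in `M ⋊_α G` consists of the scalars (for every model of `ℓ²(G, H)`; they are all unitarily
equivalent). -/
def IsStrictlyOuter (M : VonNeumannAlgebra H) (α : G → (H →L[ℂ] H) → (H →L[ℂ] H)) : Prop :=
  ∀ (K : Type u) [NormedAddCommGroup K] [InnerProductSpace ℂ K] [CompleteSpace K]
    (J : G → (H →L[ℂ] K)), IsEllTwo J → TrivialRelativeCommutant J M α

/-- Every `v g` is a unitary of `M`. -/
def IsUnitaryFamily (M : VonNeumannAlgebra H) (v : G → (H →L[ℂ] H)) : Prop :=
  ∀ g, v g ∈ M ∧ star (v g) * v g = 1 ∧ v g * star (v g) = 1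

/-- `v` is a 1-cocycle for `α`: unitaries of `M` with `v_{gh} = v_g α_g(v_h)`. -/
def IsCocycle (M : VonNeumannAlgebra H) (α : G → (H →L[ℂ] H) → (H →L[ℂ] H))
    (v : G → (H →L[ℂ] H)) : Prop :=
  IsUnitaryFamily M v ∧ ∀ g h, v (g * h) = v g * α g (v h)

/-- `x` is fixed by all the automorphisms `Ad(v_g) ∘ α_g`. -/
def IsFixedBy (α : G → (H →L[ℂ] H) → (H →L[ℂ] H)) (v : G → (H →L[ℂ] H)) (x : H →L[ℂ] H) : Prop :=
  ∀ g, v g * α g x * star (v g) = x

/-- `α` admits an ergodic cocycle perturbation: for some 1-cocycle `v` the only elements of `M`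
fixed by all `Ad(v_g) ∘ α_g` are the scalars. -/
def AdmitsErgodicPerturbation (M : VonNeumannAlgebra H)
    (α : G → (H →L[ℂ] H) → (H →L[ℂ] H)) : Prop :=
  ∃ v : G → (H →L[ℂ] H), IsCocycle M α v ∧
    ∀ x ∈ M, IsFixedBy α v x → ∃ c : ℂ, x = c • (1 : H →L[ℂ] H)

end crossed2

end Pool.Agent.V7H46.ECP
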