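import Mathlib
import Pool.Agent.V7H46.ECP.Defs

/-!
# Strict outerness of freely acting implemented actions of discrete groups
-/

set_option autoImplicit false
set_option linter.unusedSectionVars false

open scoped InnerProductSpace

namespace Pool.Agent.V7H46.ECP

universe u v w

section versions

variable {H : Type u} [NormedAddCommGroup H] [InnerProductSpace ℂ H] [CompleteSpace H]
variable {G : Type v} [Group G]

/-- The Hilbert space `ℓ²(ι, H)` (reducible version used in the proofs). -/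
abbrev EllTwo (ι : Type v) (H : Type u) [NormedAddCommGroup H] : Type (max u v) :=
  lp (fun _ : ι => H) 2

/-- version of `IsPi` -/
def IsPi0 (α : G → (H →L[ℂ] H) → (H →L[ℂ] H)) (x : H →L[ℂ] H)
    (P : EllTwo G H →L[ℂ] EllTwo G H) : Prop :=
  ∀ (ξ : EllTwo G H) (h : G), (P ξ) h = α h⁻¹ x (ξ h)

/-- version of `IsLam` -/
def IsLam0 (g : G) (L : EllTwo G H →L[ℂ] EllTwo G H) : Prop :=
  ∀ (ξ : EllTwo G H) (h : G), (L ξ) h = ξ (g⁻¹ * h)

/-- version of `crossedProduct` -/
noncomputable def crossedProduct0 (M : VonNeumannAlgebra H)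
    (α : G → (H →L[ℂ] H) → (H →L[ℂ] H)) : VonNeumannAlgebra (EllTwo G H) :=
  vnGen ({P | ∃ x ∈ M, IsPi0 α x P} ∪ {L | ∃ g : G, IsLam0 g L})

/-- version of `IsStrictlyOuter` -/
def IsStrictlyOuter0 (M : VonNeumannAlgebra H) (α : G → (H →L[ℂ] H) → (H →L[ℂ] H)) : Prop :=
  ∀ T ∈ crossedProduct0 M α, (∀ x ∈ M, ∀ P, IsPi0 α x P → T * P = P * T) →
    ∃ c : ℂ, T = c • (1 : EllTwo G H →L[ℂ] EllTwo G H)

end versions

section basics

variable {H : Type u} [NormedAddCommGroup H] [InnerProductSpace ℂ H] [CompleteSpace H]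

theorem isClosed_vn (M : VonNeumannAlgebra H) :
    IsClosed ((M.toStarSubalgebra : StarSubalgebra ℂ (H →L[ℂ] H)) : Set (H →L[ℂ] H)) := by
  have h : ((M.toStarSubalgebra : StarSubalgebra ℂ (H →L[ℂ] H)) : Set (H →L[ℂ] H)) =
      Set.centralizer (Set.centralizer (M : Set (H →L[ℂ] H))) :=
    M.centralizer_centralizer.symm
  rw [h]
  exact Set.isClosed_centralizer _

/-- A star automorphism of a von Neumann algebra preserves the operator norm. -/
theorem norm_aut (M : VonNeumannAlgebra H) (φ : M.toStarSubalgebra ≃⋆ₐ[ℂ] M.toStarSubalgebra)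
    (x : M.toStarSubalgebra) :
    ‖((φ x : M.toStarSubalgebra) : H →L[ℂ] H)‖ = ‖(x : H →L[ℂ] H)‖ := by
  let _ : CStarAlgebra (M.toStarSubalgebra : StarSubalgebra ℂ (H →L[ℂ] H)) :=
    StarSubalgebra.cstarAlgebra _ (h_closed := isClosed_vn M)
  exact StarAlgEquiv.norm_map φ x

theorem norm_action {G : Type v} [Group G] (M : VonNeumannAlgebra H)
    (α : G → (H →L[ℂ] H) → (H →L[ℂ] H)) (hα : IsAction M α) (g : G) (x : H →L[ℂ] H)
    (hx : x ∈ M) : ‖α g x‖ = ‖x‖ := by
  let φ : M.toStarSubalgebra ≃⋆ₐ[ℂ] M.toStarSubalgebra :=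
    { toFun := fun y => ⟨α g y, hα.mem g _ y.2⟩
      invFun := fun y => ⟨α g⁻¹ y, hα.mem g⁻¹ _ y.2⟩
      left_inv := fun y => by
        apply Subtype.ext
        show α g⁻¹ (α g y) = y
        rw [← hα.act_mul _ _ _ y.2, inv_mul_cancel, hα.act_one _ y.2]
      right_inv := fun y => by
        apply Subtype.ext
        show α g (α g⁻¹ y) = y
        rw [← hα.act_mul _ _ _ y.2, mul_inv_cancel, hα.act_one _ y.2]
      map_mul' := fun y z => Subtype.ext (hα.map_mul g _ y.2 _ z.2)
      map_add' := fun y z => Subtype.ext (hα.map_add g _ y.2 _ z.2)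
      map_star' := fun y => Subtype.ext (hα.map_star g _ y.2)
      map_smul' := fun c y => Subtype.ext (hα.map_smul g c _ y.2) }
  exact norm_aut M φ ⟨x, hx⟩

theorem memlp_diag {ι : Type v} (A : ι → H →L[ℂ] H) (C : ℝ) (hA : ∀ i, ‖A i‖ ≤ C)
    (ξ : EllTwo ι H) : Memℓp (fun i => A i (ξ i)) 2 := by
  have h1 := (lp.memℓp ξ).summable (by norm_num)
  refine memℓp_gen ?_
  refine Summable.of_nonneg_of_le (fun i => by positivity) (fun i => ?_)
    (h1.mul_left (C ^ (2 : ENNReal).toReal))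
  have hC : 0 ≤ C := (norm_nonneg _).trans (hA i)
  rw [← Real.mul_rpow hC (norm_nonneg _)]
  exact Real.rpow_le_rpow (norm_nonneg _)
    (((A i).le_opNorm _).trans (mul_le_mul_of_nonneg_right (hA i) (norm_nonneg _)))
    (by norm_num)

/-- The diagonal operator `(ξ_i) ↦ (A_i ξ_i)` on `ℓ²(ι, H)`, for a uniformly bounded family
`(A_i)` of operators on `H`. -/
noncomputable def diagOp {ι : Type v} (A : ι → H →L[ℂ] H) (C : ℝ) (hA : ∀ i, ‖A i‖ ≤ C) :
    EllTwo ι H →L[ℂ] EllTwo ι H :=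
  LinearMap.mkContinuous
    { toFun := fun ξ => ⟨fun i => A i (ξ i), memlp_diag A C hA ξ⟩
      map_add' := fun ξ η => by
        ext i
        exact (A i).map_add _ _
      map_smul' := fun c ξ => by
        ext i
        exact (A i).map_smul _ _ } |C| (by
      intro ξ
      have hp : (0 : ℝ) < (2 : ENNReal).toReal := by norm_num
      refine lp.norm_le_of_tsum_le hp (by positivity) ?_
      rw [Real.mul_rpow (abs_nonneg _) (norm_nonneg _), lp.norm_rpow_eq_tsum hp, ← tsum_mul_left]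
      have h1 := (lp.memℓp ξ).summable hp
      have hle : ∀ i, ‖A i (ξ i)‖ ^ (2 : ENNReal).toReal ≤
          |C| ^ (2 : ENNReal).toReal * ‖ξ i‖ ^ (2 : ENNReal).toReal := by
        intro i
        rw [← Real.mul_rpow (abs_nonneg _) (norm_nonneg _)]
        exact Real.rpow_le_rpow (norm_nonneg _)
          (((A i).le_opNorm _).trans (mul_le_mul_of_nonneg_right ((hA i).trans (le_abs_self C))
            (norm_nonneg _))) hp.le
      exact Summable.tsum_le_tsum hle
        (Summable.of_nonneg_of_le (fun i => by positivity) hle (h1.mul_left _))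
        (h1.mul_left _))

/-- The operator `ξ ↦ ξ ∘ e` on `ℓ²(ι, H)` given by a bijection `e` of `ι`. -/
noncomputable def permOp {ι : Type v} (e : ι ≃ ι) : EllTwo ι H →L[ℂ] EllTwo ι H :=
  LinearIsometry.toContinuousLinearMap
    { toFun := fun f => ⟨fun h => f (e h), by
        have h1 := (lp.memℓp f).summable (by norm_num)
        refine memℓp_gen ?_
        exact (e.summable_iff (f := fun h => ‖f h‖ ^ (2 : ENNReal).toReal)).2 h1⟩
      map_add' := fun f g => by ext h; rfl
      map_smul' := fun c f => by ext h; rfl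
      norm_map' := fun f => by
        have h1 : (0 : ℝ) < (2 : ENNReal).toReal := by norm_num
        rw [lp.norm_eq_tsum_rpow h1, lp.norm_eq_tsum_rpow h1]
        congr 1
        exact e.tsum_eq (fun h => ‖f h‖ ^ (2 : ENNReal).toReal) }

theorem mem_vnGen (S : Set (H →L[ℂ] H)) (z : H →L[ℂ] H) : z ∈ vnGen S ↔
    ∀ t ∈ StarSubalgebra.centralizer ℂ S, t * z = z * t ∧ star t * z = z * star t :=
  StarSubalgebra.mem_centralizer_iff (R := ℂ)

theorem mem_cent (S : Set (H →L[ℂ] H)) (t : H →L[ℂ] H) :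
    t ∈ StarSubalgebra.centralizer ℂ S ↔ ∀ s ∈ S, s * t = t * s ∧ star s * t = t * star s :=
  StarSubalgebra.mem_centralizer_iff (R := ℂ)

theorem subset_vnGen (S : Set (H →L[ℂ] H)) (s : H →L[ℂ] H) (hs : s ∈ S) : s ∈ vnGen S := by
  rw [mem_vnGen]
  intro t ht
  have h1 := (mem_cent S t).1 ht s hs
  refine ⟨h1.1.symm, ?_⟩
  have h2 := congrArg star h1.2
  rw [star_mul, star_mul, star_star] at h2
  exact h2

/-- An operator commuting with the commutant of `M` is in `M`. -/
theorem mem_of_comm (M : VonNeumannAlgebra H) (z : H →L[ℂ] H)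
    (h : ∀ y : H →L[ℂ] H, (∀ x ∈ M, x * y = y * x) → z * y = y * z) : z ∈ M := by
  have h1 : z ∈ Set.centralizer (Set.centralizer (M : Set (H →L[ℂ] H))) := by
    rw [Set.mem_centralizer_iff]
    intro y hy
    rw [Set.mem_centralizer_iff] at hy
    exact (h y hy).symm
  rw [M.centralizer_centralizer] at h1
  exact h1

theorem permOp_apply {ι : Type v} (e : ι ≃ ι) (f : EllTwo ι H) (h : ι) :
    (permOp e f) h = f (e h) := rfl

theorem diagOp_apply {ι : Type v} (A : ι → H →L[ℂ] H) (C : ℝ) (hA : ∀ i, ‖A i‖ ≤ C)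
    (f : EllTwo ι H) (h : ι) : (diagOp A C hA f) h = A h (f h) := rfl

theorem star_permOp {ι : Type v} (e : ι ≃ ι) :
    star (permOp (H := H) e) = permOp e.symm := by
  rw [ContinuousLinearMap.star_eq_adjoint]
  symm
  rw [ContinuousLinearMap.eq_adjoint_iff]
  intro x y
  have h1 := lp.hasSum_inner (𝕜 := ℂ) (permOp e.symm x) y
  have h2 := lp.hasSum_inner (𝕜 := ℂ) x (permOp e y)
  have h3 := (e.symm.hasSum_iff (f := fun i => ⟪x i, (permOp e y) i⟫_ℂ)
    (a := ⟪x, permOp e y⟫_ℂ)).2 h2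
  refine h1.unique ?_
  refine h3.congr_fun ?_
  intro i
  show ⟪(permOp e.symm x) i, y i⟫_ℂ = ⟪x (e.symm i), (permOp e y) (e.symm i)⟫_ℂ
  rw [permOp_apply, permOp_apply, e.apply_symm_apply]

theorem star_diagOp {ι : Type v} (A B : ι → H →L[ℂ] H) (C D : ℝ) (hA : ∀ i, ‖A i‖ ≤ C)
    (hB : ∀ i, ‖B i‖ ≤ D) (h : ∀ i, star (A i) = B i) :
    star (diagOp A C hA) = diagOp B D hB := by
  rw [ContinuousLinearMap.star_eq_adjoint]
  symm
  rw [ContinuousLinearMap.eq_adjoint_iff]
  intro x y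
  have h1 := lp.hasSum_inner (𝕜 := ℂ) (diagOp B D hB x) y
  have h2 := lp.hasSum_inner (𝕜 := ℂ) x (diagOp A C hA y)
  refine h1.unique ?_
  refine h2.congr_fun ?_
  intro i
  show ⟪B i (x i), y i⟫_ℂ = ⟪x i, A i (y i)⟫_ℂ
  rw [← h i, ContinuousLinearMap.star_eq_adjoint, ContinuousLinearMap.adjoint_inner_left]

theorem ext_single {ι : Type v} [DecidableEq ι] {S T : EllTwo ι H →L[ℂ] EllTwo ι H}
    (h : ∀ i (x : H), S (lp.single 2 i x) = T (lp.single 2 i x)) : S = T := by
  ext1 f
  have h1 := lp.hasSum_single (p := 2) (by norm_num) f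
  have h2 := S.hasSum h1
  have h3 := T.hasSum h1
  refine h2.unique (h3.congr_fun ?_)
  intro i
  exact h i _

end basics

section main

variable {H : Type u} [NormedAddCommGroup H] [InnerProductSpace ℂ H] [CompleteSpace H]
variable {G : Type v} [Group G] {M : VonNeumannAlgebra H}

/-- The operator `π(x)`. -/
noncomputable def piOp (α : G → (H →L[ℂ] H) → (H →L[ℂ] H)) (hα : IsAction M α) (x : H →L[ℂ] H)
    (hx : x ∈ M) : EllTwo G H →L[ℂ] EllTwo G H :=
  diagOp (fun h => α h⁻¹ x) ‖x‖ fun h => (norm_action M α hα h⁻¹ x hx).le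

theorem isPi_piOp (α : G → (H →L[ℂ] H) → (H →L[ℂ] H)) (hα : IsAction M α) (x : H →L[ℂ] H)
    (hx : x ∈ M) : IsPi0 α x (piOp α hα x hx) := fun _ _ => rfl

/-- `π(x)` exists. -/
theorem exists_isPi0 (α : G → (H →L[ℂ] H) → (H →L[ℂ] H)) (hα : IsAction M α) (x : H →L[ℂ] H)
    (hx : x ∈ M) : ∃ P, IsPi0 α x P := ⟨_, isPi_piOp α hα x hx⟩

theorem IsPi0.unique {α : G → (H →L[ℂ] H) → (H →L[ℂ] H)} {x : H →L[ℂ] H}
    {P Q : EllTwo G H →L[ℂ] EllTwo G H} (hP : IsPi0 α x P) (hQ : IsPi0 α x Q) : P = Q := by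
  ext f h
  rw [hP, hQ]

/-- `λ(g)` exists. -/
theorem isLam_permOp (g : G) : IsLam0 g (permOp (H := H) (Equiv.mulLeft g⁻¹)) := fun _ _ => rfl

theorem IsLam0.eq {g : G} {L : EllTwo G H →L[ℂ] EllTwo G H} (hL : IsLam0 g L) :
    L = permOp (Equiv.mulLeft g⁻¹) := by
  ext f h
  rw [hL]
  rfl

/-- An operator commuting with all `π(x)` and `λ(g)` commutes with the crossed product. -/
theorem comm_crossed (α : G → (H →L[ℂ] H) → (H →L[ℂ] H)) (hα : IsAction M α)
    (R : EllTwo G H →L[ℂ] EllTwo G H)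
    (h1 : ∀ x ∈ M, ∀ P, IsPi0 α x P → P * R = R * P)
    (h2 : ∀ g : G, permOp (Equiv.mulLeft g) * R = R * permOp (Equiv.mulLeft g))
    (T : EllTwo G H →L[ℂ] EllTwo G H) (hT : T ∈ crossedProduct0 M α) : R * T = T * R := by
  refine ((mem_vnGen _ _).1 hT R ?_).1
  rw [mem_cent]
  rintro s (⟨x, hx, hs⟩ | ⟨g, hs⟩)
  · refine ⟨h1 x hx s hs, ?_⟩
    have hx' : star x ∈ M := star_mem hx
    rw [hs.unique (isPi_piOp α hα x hx)]
    have h3 : star (piOp α hα x hx) = piOp α hα (star x) hx' := by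
      refine star_diagOp _ _ _ _ _ _ ?_
      intro i
      rw [hα.map_star _ _ hx]
    rw [h3]
    exact h1 _ hx' _ (isPi_piOp α hα _ hx')
  · rw [IsLam0.eq hs, star_permOp]
    refine ⟨h2 _, ?_⟩
    have h3 : (Equiv.mulLeft g⁻¹).symm = Equiv.mulLeft g := by
      ext x
      show (g⁻¹)⁻¹ * x = g * x
      rw [inv_inv]
    rw [h3]
    exact h2 g

/-- Matrix coefficients of operators on `ℓ²(G, H)`. -/
noncomputable def coef [DecidableEq G] (T : EllTwo G H →L[ℂ] EllTwo G H) (k h : G) : H →L[ℂ] H :=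
  (lp.evalCLM ℂ (fun _ : G => H) 2 k) ∘L T ∘L
    ((lp.lsingle (𝕜 := ℂ) (E := fun _ : G => H) 2 h).mkContinuous 1 fun x => by
      rw [one_mul]
      exact (lp.norm_single (E := fun _ : G => H) (p := 2) (by norm_num) h x).le)

theorem coef_apply [DecidableEq G] (T : EllTwo G H →L[ℂ] EllTwo G H) (k h : G) (x : H) :
    coef T k h x = (T (lp.single 2 h x)) k := rfl

theorem strictlyOuter_of_free (α : G → (H →L[ℂ] H) → (H →L[ℂ] H)) (hact : IsAction M α)
    (W : G → H →L[ℂ] H) (W' : G → H →L[ℂ] H) (hW : ∀ g, W' g * W g = 1)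
    (hα : ∀ g, ∀ x ∈ M, W g * x = α g x * W g)
    (hcenter : ∀ z ∈ M, (∀ x ∈ M, z * x = x * z) → ∃ c : ℂ, z = c • (1 : H →L[ℂ] H))
    (hfree : ∀ g, g ≠ 1 → ∀ z ∈ M, (∀ x ∈ M, z * x = α g x * z) → z = 0) :
    IsStrictlyOuter0 M α := by
  classical
  intro T hT hcom
  -- the coefficients are in `M`
  have hmem : ∀ k h, coef T k h ∈ M := by
    intro k h
    refine mem_of_comm M _ ?_
    intro y hy
    let D : EllTwo G H →L[ℂ] EllTwo G H := diagOp (fun _ : G => y) ‖y‖ fun _ => le_rfl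
    have hD : D * T = T * D := by
      refine comm_crossed α hact D ?_ ?_ T hT
      · intro x hx P hP
        ext f g
        show (P (D f)) g = y ((P f) g)
        rw [hP, hP]
        show α g⁻¹ x (y (f g)) = y (α g⁻¹ x (f g))
        exact congrArg (fun z : H →L[ℂ] H => z (f g)) (hy _ (hact.mem g⁻¹ x hx))
      · intro g
        ext f h
        rfl
    ext x
    have h1 := congrArg (fun S : EllTwo G H →L[ℂ] EllTwo G H => (S (lp.single 2 h x)) k) hD
    have h2 : D (lp.single 2 h x) = lp.single 2 h (y x) := by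
      ext g
      show y ((lp.single 2 h x : EllTwo G H) g) = (lp.single 2 h (y x) : EllTwo G H) g
      by_cases hg : g = h
      · subst hg
        rw [lp.single_apply_self, lp.single_apply_self]
      · rw [lp.single_apply_ne _ _ _ hg, lp.single_apply_ne _ _ _ hg, map_zero]
    have h3 : (T (D (lp.single 2 h x))) k = y ((T (lp.single 2 h x)) k) := h1.symm
    rw [h2] at h3
    exact h3
  -- translation
  have htr : ∀ k g h, coef T k (h * g⁻¹) * W g = W g * coef T (k * g) h := by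
    intro k g h
    let R : EllTwo G H →L[ℂ] EllTwo G H :=
      diagOp (fun _ : G => W g) ‖W g‖ (fun _ => le_rfl) * permOp (Equiv.mulRight g)
    have hR : ∀ (f : EllTwo G H) (k : G), (R f) k = W g (f (k * g)) := fun f k => rfl
    have hRT : R * T = T * R := by
      refine comm_crossed α hact R ?_ ?_ T hT
      · intro x hx P hP
        ext f k
        show (P (R f)) k = W g ((P f) (k * g))
        rw [hP, hP]
        show α k⁻¹ x (W g (f (k * g))) = W g (α (k * g)⁻¹ x (f (k * g)))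
        have h1 := congrArg (fun z : H →L[ℂ] H => z (f (k * g)))
          (hα g (α (k * g)⁻¹ x) (hact.mem _ x hx))
        have h2 : α g (α (k * g)⁻¹ x) = α k⁻¹ x := by
          rw [← hact.act_mul _ _ _ hx]
          congr 1
          group
        rw [h2] at h1
        exact h1.symm
      · intro k
        ext f l
        show W g (f (k * l * g)) = W g (f (k * (l * g)))
        rw [mul_assoc]
    ext x
    have h1 := congrArg (fun S : EllTwo G H →L[ℂ] EllTwo G H => (S (lp.single 2 h x)) k) hRT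
    have h2 : R (lp.single 2 h x) = lp.single 2 (h * g⁻¹) (W g x) := by
      ext l
      rw [hR]
      by_cases hl : l = h * g⁻¹
      · subst hl
        rw [inv_mul_cancel_right, lp.single_apply_self, lp.single_apply_self]
      · have hl' : l * g ≠ h := fun h' => hl (by rw [← h', mul_inv_cancel_right])
        rw [lp.single_apply_ne _ _ _ hl, lp.single_apply_ne _ _ _ hl', map_zero]
    have h3 : (T (R (lp.single 2 h x))) k = W g ((T (lp.single 2 h x)) (k * g)) := h1.symm
    rw [h2] at h3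
    exact h3
  -- commutation with `π(M)`
  have hcm : ∀ k, ∀ x ∈ M, coef T k 1 * x = α k⁻¹ x * coef T k 1 := by
    intro k x hx
    ext y
    have h1 := congrArg (fun S : EllTwo G H →L[ℂ] EllTwo G H => (S (lp.single 2 1 y)) k)
      (hcom x hx _ (isPi_piOp α hact x hx))
    have h2 : piOp α hact x hx (lp.single 2 1 y) = lp.single 2 1 (x y) := by
      ext l
      rw [isPi_piOp α hact x hx]
      by_cases hl : l = 1
      · subst hl
        rw [lp.single_apply_self, lp.single_apply_self, inv_one, hact.act_one x hx]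
      · rw [lp.single_apply_ne _ _ _ hl, lp.single_apply_ne _ _ _ hl, map_zero]
    have h3 : (T (piOp α hact x hx (lp.single 2 1 y))) k =
      α k⁻¹ x ((T (lp.single 2 1 y)) k) := h1
    rw [h2] at h3
    exact h3
  have hzero : ∀ k, k ≠ 1 → coef T k 1 = 0 := by
    intro k hk
    refine hfree k⁻¹ (by simpa using hk) _ (hmem k 1) (hcm k)
  obtain ⟨c, hc⟩ := hcenter (coef T 1 1) (hmem 1 1) (by
    intro x hx
    have h1 := hcm 1 x hx
    rw [inv_one, hact.act_one x hx] at h1
    exact h1)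
  refine ⟨c, ?_⟩
  have hall : ∀ k h, coef T k h = if k = h then c • (1 : H →L[ℂ] H) else 0 := by
    intro k h
    have h1 := htr (k * h⁻¹) h h
    rw [mul_inv_cancel, inv_mul_cancel_right] at h1
    have h2 : coef T k h = W' h * (coef T (k * h⁻¹) 1 * W h) := by
      rw [h1, ← mul_assoc, hW, one_mul]
    rw [h2]
    by_cases hkh : k = h
    · subst hkh
      rw [if_pos rfl, mul_inv_cancel, hc, smul_mul_assoc, one_mul, mul_smul_comm, hW]
    · have h3 : k * h⁻¹ ≠ 1 := fun h' => hkh (mul_inv_eq_one.1 h')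
      rw [if_neg hkh, hzero _ h3, zero_mul, mul_zero]
  refine ext_single ?_
  intro h x
  ext k
  have h1 := congrArg (fun z : H →L[ℂ] H => z x) (hall k h)
  have h2 : (T (lp.single 2 h x)) k = (if k = h then c • (1 : H →L[ℂ] H) else 0) x := h1
  rw [h2]
  show _ = c • ((lp.single 2 h x : EllTwo G H) k)
  by_cases hkh : k = h
  · subst hkh
    rw [if_pos rfl, lp.single_apply_self]
    rfl
  · rw [if_neg hkh, lp.single_apply_ne _ _ _ hkh, smul_zero]
    rfl

end main

section transport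

variable {H : Type u} [NormedAddCommGroup H] [InnerProductSpace ℂ H] [CompleteSpace H]
variable {K : Type v} [NormedAddCommGroup K] [InnerProductSpace ℂ K] [CompleteSpace K]
variable {G : Type w} [Group G] {M : VonNeumannAlgebra H}

/-- Every model of `ℓ²(G, H)` is isomorphic to `lp`. -/
theorem exists_iso [DecidableEq G] (J : G → (H →L[ℂ] K)) (hJ : IsEllTwo J) :
    ∃ U : K ≃ₗᵢ[ℂ] EllTwo G H, ∀ g ξ, U (J g ξ) = lp.single 2 g ξ := by
  let V : G → (H →ₗᵢ[ℂ] K) := fun g =>
    LinearMap.isometryOfInner (J g : H →ₗ[ℂ] K) (hJ.inner_self g)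
  have hV : ∀ g ξ, V g ξ = J g ξ := fun g ξ => rfl
  have hort : OrthogonalFamily ℂ (fun _ : G => H) V := by
    intro g h hgh ξ η
    exact hJ.inner_ne g h hgh ξ η
  have hsum : IsHilbertSum ℂ (fun _ : G => H) V := by
    refine IsHilbertSum.mk hort ?_
    rw [top_le_iff, Submodule.topologicalClosure_eq_top_iff, Submodule.eq_bot_iff]
    intro x hx
    refine hJ.total x ?_
    intro g ξ
    rw [Submodule.mem_orthogonal] at hx
    refine hx _ ?_
    refine Submodule.mem_iSup_of_mem g ?_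
    exact ⟨ξ, rfl⟩
  refine ⟨hsum.linearIsometryEquiv, ?_⟩
  intro g ξ
  rw [← hV, ← hsum.linearIsometryEquiv_symm_apply_single, LinearIsometryEquiv.apply_symm_apply]

theorem isPi_iff [DecidableEq G] (J : G → (H →L[ℂ] K)) (U : K ≃ₗᵢ[ℂ] EllTwo G H)
    (hU : ∀ g ξ, U (J g ξ) = lp.single 2 g ξ) (α : G → (H →L[ℂ] H) → (H →L[ℂ] H))
    (hα : IsAction M α) (x : H →L[ℂ] H) (hx : x ∈ M) (P : K →L[ℂ] K) :
    IsPi J α x P ↔ IsPi0 α x (U.conjStarAlgEquiv P) := by
  have hU' : ∀ g ξ, U.symm (lp.single 2 g ξ) = J g ξ := by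
    intro g ξ
    rw [← hU, LinearIsometryEquiv.symm_apply_apply]
  have hpi : ∀ g ξ, piOp α hα x hx (lp.single 2 g ξ) = lp.single 2 g (α g⁻¹ x ξ) := by
    intro g ξ
    ext l
    rw [isPi_piOp α hα x hx]
    by_cases hl : l = g
    · subst hl
      rw [lp.single_apply_self, lp.single_apply_self]
    · rw [lp.single_apply_ne _ _ _ hl, lp.single_apply_ne _ _ _ hl, map_zero]
  constructor
  · intro h
    have h1 : U.conjStarAlgEquiv P = piOp α hα x hx := by
      refine ext_single ?_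
      intro g ξ
      rw [LinearIsometryEquiv.conjStarAlgEquiv_apply_apply, hU', h, hU, hpi]
    rw [h1]
    exact isPi_piOp α hα x hx
  · intro h g ξ
    have h1 : U.conjStarAlgEquiv P = piOp α hα x hx := h.unique (isPi_piOp α hα x hx)
    have h2 := congrArg (fun S : EllTwo G H →L[ℂ] EllTwo G H => U.symm (S (lp.single 2 g ξ))) h1
    simp only [LinearIsometryEquiv.conjStarAlgEquiv_apply_apply, hU', hpi,
      LinearIsometryEquiv.symm_apply_apply] at h2
    exact h2

/-- `π(x)` exists, for every model of `ℓ²(G, H)`. -/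
theorem exists_isPi (J : G → (H →L[ℂ] K)) (hJ : IsEllTwo J)
    (α : G → (H →L[ℂ] H) → (H →L[ℂ] H)) (hα : IsAction M α) (x : H →L[ℂ] H)
    (hx : x ∈ M) : ∃ P, IsPi J α x P := by
  classical
  obtain ⟨U, hU⟩ := exists_iso J hJ
  refine ⟨U.conjStarAlgEquiv.symm (piOp α hα x hx), ?_⟩
  rw [isPi_iff J U hU α hα x hx, StarAlgEquiv.apply_symm_apply]
  exact isPi_piOp α hα x hx

theorem isLam_transport [DecidableEq G] (J : G → (H →L[ℂ] K)) (U : K ≃ₗᵢ[ℂ] EllTwo G H)
    (hU : ∀ g ξ, U (J g ξ) = lp.single 2 g ξ) (g : G) (L : K →L[ℂ] K) (hL : IsLam J g L) :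
    IsLam0 g (U.conjStarAlgEquiv L) := by
  have hU' : ∀ g ξ, U.symm (lp.single 2 g ξ) = J g ξ := by
    intro g ξ
    rw [← hU, LinearIsometryEquiv.symm_apply_apply]
  have h1 : U.conjStarAlgEquiv L = permOp (Equiv.mulLeft g⁻¹) := by
    refine ext_single ?_
    intro h ξ
    rw [LinearIsometryEquiv.conjStarAlgEquiv_apply_apply, hU', hL, hU]
    ext l
    rw [permOp_apply]
    show _ = (lp.single 2 h ξ : EllTwo G H) (g⁻¹ * l)
    by_cases hl : l = g * h
    · subst hl
      rw [inv_mul_cancel_left, lp.single_apply_self, lp.single_apply_self]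
    · have hl' : g⁻¹ * l ≠ h := fun h' => hl (by rw [← h', mul_inv_cancel_left])
      rw [lp.single_apply_ne _ _ _ hl, lp.single_apply_ne _ _ _ hl']
  rw [h1]
  exact isLam_permOp g

theorem trivial_of_strictlyOuter0 (J : G → (H →L[ℂ] K)) (hJ : IsEllTwo J)
    (α : G → (H →L[ℂ] H) → (H →L[ℂ] H)) (hα : IsAction M α) (h0 : IsStrictlyOuter0 M α) :
    TrivialRelativeCommutant J M α := by
  classical
  obtain ⟨U, hU⟩ := exists_iso J hJ
  intro T hT hcom
  have hT0 : U.conjStarAlgEquiv T ∈ crossedProduct0 M α := by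
    unfold crossedProduct0
    rw [mem_vnGen]
    intro t ht
    rw [mem_cent] at ht
    have ht' : U.conjStarAlgEquiv.symm t ∈ StarSubalgebra.centralizer ℂ
        ({P | ∃ x ∈ M, IsPi J α x P} ∪ {L | ∃ g, IsLam J g L}) := by
      rw [mem_cent]
      intro s hs
      have hs0 : U.conjStarAlgEquiv s ∈ ({P | ∃ x ∈ M, IsPi0 α x P} ∪ {L | ∃ g : G, IsLam0 g L} :
          Set (EllTwo G H →L[ℂ] EllTwo G H)) := by
        rcases hs with ⟨x, hx, hs⟩ | ⟨g, hs⟩
        · exact Or.inl ⟨x, hx, (isPi_iff J U hU α hα x hx s).1 hs⟩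
        · exact Or.inr ⟨g, isLam_transport J U hU g s hs⟩
      have h1 := ht _ hs0
      constructor
      · apply EquivLike.injective U.conjStarAlgEquiv
        rw [map_mul, map_mul, StarAlgEquiv.apply_symm_apply]
        exact h1.1
      · apply EquivLike.injective U.conjStarAlgEquiv
        rw [map_mul, map_mul, StarAlgEquiv.apply_symm_apply, map_star]
        exact h1.2
    have h2 := (mem_vnGen _ _).1 hT _ ht'
    constructor
    · have h3 := congrArg U.conjStarAlgEquiv h2.1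
      rw [map_mul, map_mul, StarAlgEquiv.apply_symm_apply] at h3
      exact h3
    · have h3 := congrArg U.conjStarAlgEquiv h2.2
      rw [map_mul, map_mul, map_star, StarAlgEquiv.apply_symm_apply] at h3
      exact h3
  obtain ⟨c, hc⟩ := h0 _ hT0 (by
    intro x hx P0 hP0
    have h1 : IsPi J α x (U.conjStarAlgEquiv.symm P0) := by
      rw [isPi_iff J U hU α hα x hx, StarAlgEquiv.apply_symm_apply]
      exact hP0
    have h2 := congrArg U.conjStarAlgEquiv (hcom x hx _ h1)
    rw [map_mul, map_mul, StarAlgEquiv.apply_symm_apply] at h2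
    exact h2)
  refine ⟨c, ?_⟩
  apply EquivLike.injective U.conjStarAlgEquiv
  rw [hc, map_smul, map_one]

end transport

end Pool.Agent.V7H46.ECP
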