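import Mathlib
import Pool.Agent.V7H46.ECP.Cross

/-!
# Group von Neumann algebras and actions induced by automorphisms of the group
-/

set_option autoImplicit false
set_option linter.unusedSectionVars false

open scoped InnerProductSpace

namespace Pool.Agent.V7H46.ECP

universe u v

section grp

variable {Γ : Type u} [Group Γ]

/-- the basis vector `δ_g` -/
noncomputable def dl (g : Γ) : EllTwo Γ ℂ := by
  classical
  exact lp.single 2 g (1 : ℂ)

theorem dl_self (g : Γ) : (dl g) g = 1 := by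
  classical
  unfold dl
  exact lp.single_apply_self _ _ _

theorem dl_ne (g h : Γ) (hg : h ≠ g) : (dl g) h = 0 := by
  classical
  unfold dl
  exact lp.single_apply_ne _ _ _ hg

theorem inner_dl (g : Γ) (f : EllTwo Γ ℂ) : ⟪dl g, f⟫_ℂ = f g := by
  classical
  unfold dl
  rw [lp.inner_single_left]
  simp

theorem inner_dl' (g : Γ) (f : EllTwo Γ ℂ) : ⟪f, dl g⟫_ℂ = star (f g) := by
  rw [← inner_conj_symm, inner_dl]
  rfl

/-- left translation -/
noncomputable def lam (g : Γ) : EllTwo Γ ℂ →L[ℂ] EllTwo Γ ℂ := permOp (Equiv.mulLeft g⁻¹)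

/-- right translation -/
noncomputable def rho (g : Γ) : EllTwo Γ ℂ →L[ℂ] EllTwo Γ ℂ := permOp (Equiv.mulRight g)

theorem lam_apply (g : Γ) (f : EllTwo Γ ℂ) (h : Γ) : (lam g f) h = f (g⁻¹ * h) := rfl

theorem rho_apply (g : Γ) (f : EllTwo Γ ℂ) (h : Γ) : (rho g f) h = f (h * g) := rfl

theorem star_lam (g : Γ) : star (lam g) = lam g⁻¹ := by
  unfold lam
  rw [star_permOp]
  rfl

theorem star_rho (g : Γ) : star (rho g) = rho g⁻¹ := by
  unfold rho
  rw [star_permOp]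
  rfl

theorem lam_mul (g h : Γ) : lam (g * h) = lam g * lam h := by
  ext f k
  show f ((g * h)⁻¹ * k) = f (h⁻¹ * (g⁻¹ * k))
  rw [mul_inv_rev, mul_assoc]

theorem lam_one : lam (1 : Γ) = 1 := by
  ext f k
  show f ((1 : Γ)⁻¹ * k) = f k
  rw [inv_one, one_mul]

theorem lam_rho (g h : Γ) : lam g * rho h = rho h * lam g := by
  ext f k
  show f (g⁻¹ * k * h) = f (g⁻¹ * (k * h))
  rw [mul_assoc]

theorem lam_dl (g h : Γ) : lam g (dl h) = dl (g * h) := by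
  ext k
  rw [lam_apply]
  by_cases hk : k = g * h
  · subst hk
    rw [inv_mul_cancel_left, dl_self, dl_self]
  · have h1 : g⁻¹ * k ≠ h := fun h' => hk (by rw [← h', mul_inv_cancel_left])
    rw [dl_ne _ _ h1, dl_ne _ _ hk]

theorem rho_dl (g h : Γ) : rho g (dl h) = dl (h * g⁻¹) := by
  ext k
  rw [rho_apply]
  by_cases hk : k = h * g⁻¹
  · subst hk
    rw [inv_mul_cancel_right, dl_self, dl_self]
  · have h1 : k * g ≠ h := fun h' => hk (by rw [← h', mul_inv_cancel_right])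
    rw [dl_ne _ _ h1, dl_ne _ _ hk]

/-- the group von Neumann algebra `L(Γ)` -/
noncomputable def LG (Γ : Type u) [Group Γ] : VonNeumannAlgebra (EllTwo Γ ℂ) :=
  vnGen (Set.range (lam (Γ := Γ)))

theorem lam_mem (g : Γ) : lam g ∈ LG Γ := subset_vnGen _ _ ⟨g, rfl⟩

theorem mem_cent_lam (t : EllTwo Γ ℂ →L[ℂ] EllTwo Γ ℂ) :
    t ∈ StarSubalgebra.centralizer ℂ (Set.range (lam (Γ := Γ))) ↔
      ∀ g : Γ, lam g * t = t * lam g := by
  rw [mem_cent]
  constructor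
  · intro h g
    exact (h _ ⟨g, rfl⟩).1
  · rintro h _ ⟨g, rfl⟩
    refine ⟨h g, ?_⟩
    rw [star_lam]
    exact h g⁻¹

theorem mem_LG (x : EllTwo Γ ℂ →L[ℂ] EllTwo Γ ℂ) : x ∈ LG Γ ↔
    ∀ t : EllTwo Γ ℂ →L[ℂ] EllTwo Γ ℂ, (∀ g : Γ, lam g * t = t * lam g) → t * x = x * t := by
  unfold LG
  rw [mem_vnGen]
  constructor
  · intro h t ht
    exact (h t ((mem_cent_lam t).2 ht)).1
  · intro h t ht
    rw [mem_cent_lam] at ht
    refine ⟨h t ht, h (star t) ?_⟩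
    intro g
    have h1 := congrArg star (ht g⁻¹)
    rw [star_mul, star_mul, star_lam, inv_inv] at h1
    exact h1.symm

theorem comm_rho (x : EllTwo Γ ℂ →L[ℂ] EllTwo Γ ℂ) (hx : x ∈ LG Γ) (g : Γ) :
    rho g * x = x * rho g :=
  (mem_LG x).1 hx (rho g) fun h => lam_rho h g

theorem apply_dl (x : EllTwo Γ ℂ →L[ℂ] EllTwo Γ ℂ) (hx : x ∈ LG Γ) (h k : Γ) :
    (x (dl h)) k = (x (dl 1)) (k * h⁻¹) := by
  have h1 : dl h = rho h⁻¹ (dl 1) := by
    rw [rho_dl, inv_inv, one_mul]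
  have h2 := congrArg (fun z : EllTwo Γ ℂ →L[ℂ] EllTwo Γ ℂ => z (dl 1)) (comm_rho x hx h⁻¹)
  have h3 : rho h⁻¹ (x (dl 1)) = x (rho h⁻¹ (dl 1)) := h2
  rw [h1, ← h3, rho_apply]

theorem ext_dl {S T : EllTwo Γ ℂ →L[ℂ] EllTwo Γ ℂ} (h : ∀ g, S (dl g) = T (dl g)) : S = T := by
  classical
  refine ext_single ?_
  intro i x
  have h1 : (lp.single 2 i x : EllTwo Γ ℂ) = x • dl i := by
    ext k
    show _ = x • (dl i) k
    by_cases hk : k = i
    · subst hk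
      rw [lp.single_apply_self, dl_self, smul_eq_mul, mul_one]
    · rw [lp.single_apply_ne _ _ _ hk, dl_ne _ _ hk, smul_zero]
  rw [h1, map_smul, map_smul, h i]

/-- elements of `L(Γ)` are determined by their value at `δ_1` -/
theorem ext_LG {x y : EllTwo Γ ℂ →L[ℂ] EllTwo Γ ℂ} (hx : x ∈ LG Γ) (hy : y ∈ LG Γ)
    (h : ∀ k, (x (dl 1)) k = (y (dl 1)) k) : x = y := by
  refine ext_dl ?_
  intro g
  ext k
  rw [apply_dl x hx, apply_dl y hy, h]

theorem star_coef (x : EllTwo Γ ℂ →L[ℂ] EllTwo Γ ℂ) (hx : x ∈ LG Γ) (h : Γ) :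
    ((star x) (dl 1)) h = star ((x (dl 1)) h⁻¹) := by
  rw [← inner_dl h, ContinuousLinearMap.star_eq_adjoint,
    ContinuousLinearMap.adjoint_inner_right, inner_dl', apply_dl x hx, one_mul]

theorem trG_mul (x y : EllTwo Γ ℂ →L[ℂ] EllTwo Γ ℂ) (hx : x ∈ LG Γ) :
    HasSum (fun h => (x (dl 1)) h⁻¹ * (y (dl 1)) h) (((x * y) (dl 1)) 1) := by
  have h1 : ((x * y) (dl 1)) 1 = ⟪(star x) (dl 1), y (dl 1)⟫_ℂ := by
    rw [ContinuousLinearMap.star_eq_adjoint, ContinuousLinearMap.adjoint_inner_left, inner_dl]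
    rfl
  rw [h1]
  refine (lp.hasSum_inner (𝕜 := ℂ) ((star x) (dl 1)) (y (dl 1))).congr_fun ?_
  intro h
  rw [star_coef _ hx]
  simp [mul_comm]

/-- the sequence of vectors `δ_1, 0, 0, …` -/
noncomputable def vecs (Γ : Type u) [Group Γ] : ℕ → EllTwo Γ ℂ :=
  fun k => Nat.casesOn k (dl 1) (fun _ => 0)

theorem vecFun_vecs (x : EllTwo Γ ℂ →L[ℂ] EllTwo Γ ℂ) :
    vecFun (vecs Γ) x = (x (dl 1)) 1 := by
  unfold vecFun
  rw [tsum_eq_single 0]
  · show ⟪dl 1, x (dl 1)⟫_ℂ = _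
    rw [inner_dl]
  · intro k hk
    cases k with
    | zero => simp at hk
    | succ n => simp [vecs]

theorem trG_trace : ∃ ξ : ℕ → EllTwo Γ ℂ, Summable (fun k => ‖ξ k‖ ^ 2) ∧ vecFun ξ 1 = 1 ∧
    (∀ x ∈ LG Γ, ∀ y ∈ LG Γ, vecFun ξ (x * y) = vecFun ξ (y * x)) ∧
    ∀ x ∈ LG Γ, vecFun ξ (star x * x) = 0 → x = 0 := by
  refine ⟨vecs Γ, ?_, ?_, ?_, ?_⟩
  · refine summable_of_ne_finset_zero (s := {0}) ?_
    intro k hk
    cases k with
    | zero => simp at hk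
    | succ n => simp [vecs]
  · rw [vecFun_vecs]
    exact dl_self 1
  · intro x hx y hy
    rw [vecFun_vecs, vecFun_vecs]
    have h1 := trG_mul x y hx
    have h2 := trG_mul y x hy
    have h3 := ((Equiv.inv Γ).hasSum_iff (f := fun h => (y (dl 1)) h⁻¹ * (x (dl 1)) h)
      (a := ((y * x) (dl 1)) 1)).2 h2
    refine h1.unique (h3.congr_fun ?_)
    intro h
    show _ = (y (dl 1)) (h⁻¹)⁻¹ * (x (dl 1)) h⁻¹
    rw [inv_inv, mul_comm]
  · intro x hx h0
    rw [vecFun_vecs] at h0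
    have h1 : ((star x * x) (dl 1)) 1 = ⟪x (dl 1), x (dl 1)⟫_ℂ := by
      rw [← ContinuousLinearMap.adjoint_inner_right, ← ContinuousLinearMap.star_eq_adjoint,
        inner_dl]
      rfl
    rw [h1, inner_self_eq_zero] at h0
    refine ext_LG hx (LG Γ).toStarSubalgebra.zero_mem ?_
    intro k
    rw [h0]
    rfl

theorem orthonormal_dl : Orthonormal ℂ (dl (Γ := Γ)) := by
  classical
  rw [orthonormal_iff_ite]
  intro g h
  rw [inner_dl]
  by_cases hgh : g = h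
  · subst hgh
    rw [if_pos rfl, dl_self]
  · rw [if_neg hgh, dl_ne _ _ hgh]

theorem infinite_dim [Infinite Γ] : ∃ f : ℕ → (EllTwo Γ ℂ →L[ℂ] EllTwo Γ ℂ),
    (∀ n, f n ∈ LG Γ) ∧ LinearIndependent ℂ f := by
  let e := Infinite.natEmbedding Γ
  refine ⟨fun n => lam (e n), fun n => lam_mem _, ?_⟩
  let ev : (EllTwo Γ ℂ →L[ℂ] EllTwo Γ ℂ) →ₗ[ℂ] EllTwo Γ ℂ :=
    { toFun := fun x => x (dl 1)
      map_add' := fun _ _ => rfl
      map_smul' := fun _ _ => rfl }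
  have h1 : LinearIndependent ℂ (ev ∘ fun n => lam (e n)) := by
    have : (ev ∘ fun n => lam (e n)) = dl ∘ e := by
      funext n
      show lam (e n) (dl 1) = dl (e n)
      rw [lam_dl, mul_one]
    rw [this]
    exact orthonormal_dl.linearIndependent.comp _ e.injective
  exact LinearIndependent.of_comp ev h1

end grp

section action

variable {Γ : Type u} [Group Γ] {G : Type v} [Group G] (θ : G →* MulAut Γ)

/-- the unitary operators implementing the action -/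
noncomputable def WW (g : G) : EllTwo Γ ℂ →L[ℂ] EllTwo Γ ℂ := permOp (θ g⁻¹).toEquiv

theorem WW_apply (g : G) (f : EllTwo Γ ℂ) (h : Γ) : (WW θ g f) h = f (θ g⁻¹ h) := rfl

theorem WW_mul (g h : G) : WW θ (g * h) = WW θ g * WW θ h := by
  ext f k
  show f (θ (g * h)⁻¹ k) = f (θ h⁻¹ (θ g⁻¹ k))
  rw [mul_inv_rev, map_mul]
  rfl

theorem WW_one : WW θ 1 = 1 := by
  ext f k
  show f (θ (1 : G)⁻¹ k) = f k
  rw [inv_one, map_one]
  rfl

theorem WW_inv_mul (g : G) : WW θ g⁻¹ * WW θ g = 1 := by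
  rw [← WW_mul, inv_mul_cancel, WW_one]

theorem WW_mul_inv (g : G) : WW θ g * WW θ g⁻¹ = 1 := by
  rw [← WW_mul, mul_inv_cancel, WW_one]

theorem star_WW (g : G) : star (WW θ g) = WW θ g⁻¹ := by
  unfold WW
  rw [star_permOp]
  congr 1
  rw [inv_inv]
  ext x
  show (θ g⁻¹).symm x = θ g x
  rw [map_inv]
  rfl

theorem WW_lam (g : G) (γ : Γ) : WW θ g * lam γ = lam (θ g γ) * WW θ g := by
  ext f k
  show f (γ⁻¹ * θ g⁻¹ k) = f (θ g⁻¹ ((θ g γ)⁻¹ * k))
  have h1 : θ g⁻¹ (θ g γ) = γ := by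
    rw [map_inv]
    exact MulEquiv.symm_apply_apply (θ g) γ
  have h2 : θ g⁻¹ ((θ g γ)⁻¹ * k) = γ⁻¹ * θ g⁻¹ k := by
    have h3 : θ g⁻¹ (θ g γ)⁻¹ = (θ g⁻¹ (θ g γ))⁻¹ := map_inv (θ g⁻¹) _
    rw [map_mul, h3, h1]
  rw [h2]

theorem conj_mem (g : G) (x : EllTwo Γ ℂ →L[ℂ] EllTwo Γ ℂ) (hx : x ∈ LG Γ) :
    WW θ g * x * WW θ g⁻¹ ∈ LG Γ := by
  rw [mem_LG]
  intro t ht
  have h1 : (WW θ g⁻¹ * t * WW θ g) * x = x * (WW θ g⁻¹ * t * WW θ g) := by
    refine (mem_LG x).1 hx _ ?_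
    intro γ
    have h2 : lam γ * WW θ g⁻¹ = WW θ g⁻¹ * lam (θ g γ) := by
      rw [WW_lam, map_inv]
      congr 2
      show γ = (θ g).symm (θ g γ)
      rw [MulEquiv.symm_apply_apply]
    calc lam γ * (WW θ g⁻¹ * t * WW θ g) = (lam γ * WW θ g⁻¹) * t * WW θ g := by
          simp only [mul_assoc]
      _ = WW θ g⁻¹ * (lam (θ g γ) * t) * WW θ g := by rw [h2]; simp only [mul_assoc]
      _ = WW θ g⁻¹ * t * (lam (θ g γ) * WW θ g) := by rw [ht]; simp only [mul_assoc]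
      _ = WW θ g⁻¹ * t * WW θ g * lam γ := by rw [← WW_lam]; simp only [mul_assoc]
  calc t * (WW θ g * x * WW θ g⁻¹)
      = (WW θ g * WW θ g⁻¹) * t * WW θ g * x * WW θ g⁻¹ := by
        rw [WW_mul_inv, one_mul]; simp only [mul_assoc]
    _ = WW θ g * ((WW θ g⁻¹ * t * WW θ g) * x) * WW θ g⁻¹ := by simp only [mul_assoc]
    _ = WW θ g * (x * (WW θ g⁻¹ * t * WW θ g)) * WW θ g⁻¹ := by rw [h1]
    _ = WW θ g * x * WW θ g⁻¹ * t * (WW θ g * WW θ g⁻¹) := by simp only [mul_assoc]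
    _ = WW θ g * x * WW θ g⁻¹ * t := by rw [WW_mul_inv, mul_one]

/-- the action `α_g = Ad(W_g)` -/
noncomputable def act (g : G) (x : EllTwo Γ ℂ →L[ℂ] EllTwo Γ ℂ) : EllTwo Γ ℂ →L[ℂ] EllTwo Γ ℂ :=
  WW θ g * x * WW θ g⁻¹

theorem isAction_act : IsAction (LG Γ) (act θ) where
  mem g x hx := conj_mem θ g x hx
  act_one x _ := by
    unfold act
    rw [inv_one, WW_one, one_mul, mul_one]
  act_mul g h x _ := by
    unfold act
    rw [mul_inv_rev, WW_mul, WW_mul]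
    simp only [mul_assoc]
  map_add g x _ y _ := by
    unfold act
    rw [mul_add, add_mul]
  map_mul g x _ y _ := by
    unfold act
    calc WW θ g * (x * y) * WW θ g⁻¹
        = WW θ g * x * 1 * y * WW θ g⁻¹ := by
          rw [mul_one]; simp only [mul_assoc]
      _ = _ := by rw [← WW_inv_mul θ g]; simp only [mul_assoc]
  map_smul g c x _ := by
    unfold act
    rw [mul_smul_comm, smul_mul_assoc]
  map_star g x _ := by
    unfold act
    rw [star_mul, star_mul, star_WW, star_WW, inv_inv, mul_assoc]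

theorem act_lam (g : G) (γ : Γ) : act θ g (lam γ) = lam (θ g γ) := by
  unfold act
  rw [WW_lam, mul_assoc, WW_mul_inv, mul_one]

end action

end Pool.Agent.V7H46.ECP
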