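import Mathlib
import Pool.Agent.V7H46.ECP.Group

/-!
# An action of a discrete group on `L(S_X^fin)`, `X` very large
-/

set_option autoImplicit false
set_option linter.unusedSectionVars false

open scoped InnerProductSpace

namespace Pool.Agent.V7H46.ECP

universe u v

/-- the group of finitary permutations of `X` -/
def FinPerm (X : Type u) : Subgroup (Equiv.Perm X) where
  carrier := {σ | {x | σ x ≠ x}.Finite}
  one_mem' := by simp
  mul_mem' := by
    intro σ τ hσ hτ
    refine (hσ.union hτ).subset ?_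
    intro x hx
    by_contra h
    simp only [Set.mem_union, Set.mem_ofPred_eq, not_or, not_not] at h
    exact hx (by rw [Equiv.Perm.mul_apply, h.2, h.1])
  inv_mem' := by
    intro σ hσ
    refine Set.Finite.subset hσ ?_
    intro x hx h
    exact hx (by rw [Equiv.Perm.inv_eq_iff_eq, h])

section

variable {X : Type u}

theorem swap_mem [DecidableEq X] (p q : X) : Equiv.swap p q ∈ FinPerm X := by
  show {x | Equiv.swap p q x ≠ x}.Finite
  refine (Set.toFinite {p, q}).subset ?_
  intro x hx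
  by_contra h
  simp only [Set.mem_insert_iff, Set.mem_singleton_iff, not_or] at h
  exact hx (Equiv.swap_apply_of_ne_of_ne h.1 h.2)

/-- a transposition, as a finitary permutation -/
noncomputable def sw (p q : X) : FinPerm X := by
  classical
  exact ⟨Equiv.swap p q, swap_mem p q⟩

theorem sw_left (p q : X) : (sw p q : Equiv.Perm X) p = q := by
  classical
  exact Equiv.swap_apply_left p q

theorem sw_right (p q : X) : (sw p q : Equiv.Perm X) q = p := by
  classical
  exact Equiv.swap_apply_right p q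

theorem sw_ne (p q x : X) (h1 : x ≠ p) (h2 : x ≠ q) : (sw p q : Equiv.Perm X) x = x := by
  classical
  exact Equiv.swap_apply_of_ne_of_ne h1 h2

theorem sw_comm (p q : X) (s : FinPerm X) (hp : (s : Equiv.Perm X) p = p)
    (hq : (s : Equiv.Perm X) q = q) : s * sw p q = sw p q * s := by
  classical
  apply Subtype.ext
  show (s : Equiv.Perm X) * Equiv.swap p q = Equiv.swap p q * (s : Equiv.Perm X)
  rw [Equiv.mul_swap_eq_swap_mul, hp, hq]

/-- conjugation of finitary permutations by a permutation -/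
def cj (π : Equiv.Perm X) : FinPerm X ≃* FinPerm X where
  toFun s := ⟨π * s * π⁻¹, by
    have hs : {x | (s : Equiv.Perm X) x ≠ x}.Finite := s.2
    refine (hs.image π).subset ?_
    intro x hx
    refine ⟨π⁻¹ x, ?_, Equiv.apply_symm_apply π x⟩
    intro h
    apply hx
    show π ((s : Equiv.Perm X) (π⁻¹ x)) = x
    rw [h]
    exact Equiv.apply_symm_apply π x⟩
  invFun s := ⟨π⁻¹ * s * π, by
    have hs : {x | (s : Equiv.Perm X) x ≠ x}.Finite := s.2
    refine (hs.image (π⁻¹ : Equiv.Perm X)).subset ?_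
    intro x hx
    refine ⟨π x, ?_, Equiv.symm_apply_apply π x⟩
    intro h
    apply hx
    show (π⁻¹ : Equiv.Perm X) ((s : Equiv.Perm X) (π x)) = x
    rw [h]
    exact Equiv.symm_apply_apply π x⟩
  left_inv s := by
    apply Subtype.ext
    show π⁻¹ * (π * (s : Equiv.Perm X) * π⁻¹) * π = s
    group
  right_inv s := by
    apply Subtype.ext
    show π * (π⁻¹ * (s : Equiv.Perm X) * π) * π⁻¹ = s
    group
  map_mul' s t := by
    apply Subtype.ext
    show π * ((s : Equiv.Perm X) * t) * π⁻¹ = (π * s * π⁻¹) * (π * t * π⁻¹)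
    group

theorem cj_coe (π : Equiv.Perm X) (s : FinPerm X) :
    ((cj π s : FinPerm X) : Equiv.Perm X) = π * s * π⁻¹ := rfl

theorem cj_sw (π : Equiv.Perm X) (p q : X) : cj π (sw p q) = sw (π p) (π q) := by
  classical
  apply Subtype.ext
  show π * Equiv.swap p q * π⁻¹ = Equiv.swap (π p) (π q)
  rw [Equiv.mul_swap_eq_swap_mul, mul_assoc, mul_inv_cancel, mul_one]

/-- the points moved by the permutations in the support of a square summable function -/
def moved (f : EllTwo (FinPerm X) ℂ) : Set X :=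
  {x | ∃ s : FinPerm X, f s ≠ 0 ∧ (s : Equiv.Perm X) x ≠ x}

theorem moved_countable (f : EllTwo (FinPerm X) ℂ) : (moved f).Countable := by
  have h1 := (lp.memℓp f).summable (by norm_num)
  have h2 := h1.countable_support
  have h3 : {s : FinPerm X | f s ≠ 0}.Countable := by
    refine h2.mono ?_
    intro s hs
    rw [Function.mem_support]
    have h0 : 0 < ‖f s‖ := norm_pos_iff.2 hs
    positivity
  have h4 : moved f = ⋃ s ∈ {s : FinPerm X | f s ≠ 0}, {x | (s : Equiv.Perm X) x ≠ x} := by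
    ext x
    simp only [moved, Set.mem_ofPred_eq, Set.mem_iUnion, exists_prop]
  rw [h4]
  exact h3.biUnion fun s _ => s.2.countable

end

section example1

variable (G : Type u) [Group G]

/-- the index set: larger than `G × ℕ` -/
abbrev Idx : Type u := Set (G × ℕ)

/-- the `G`-set `X`: a large number of copies of `G ⊔ {two fixed points}` -/
abbrev XX : Type u := Idx G × (G ⊕ Bool)

variable {G}

/-- the action of `G` on `X` -/
def pp (g : G) : Equiv.Perm (XX G) where
  toFun x := (x.1, Sum.map (fun h => g * h) id x.2)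
  invFun x := (x.1, Sum.map (fun h => g⁻¹ * h) id x.2)
  left_inv := by
    rintro ⟨i, h | b⟩
    · simp
    · simp
  right_inv := by
    rintro ⟨i, h | b⟩
    · simp
    · simp

theorem pp_inl (g h : G) (i : Idx G) : pp g (i, Sum.inl h) = (i, Sum.inl (g * h)) := rfl

theorem pp_inr (g : G) (b : Bool) (i : Idx G) : pp g (i, Sum.inr b) = (i, Sum.inr b) := rfl

theorem pp_mul (g h : G) : pp (g * h) = pp g * pp h := by
  ext1 x
  obtain ⟨i, k | b⟩ := x
  · rw [Equiv.Perm.mul_apply, pp_inl, pp_inl, pp_inl, mul_assoc]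
  · rw [Equiv.Perm.mul_apply, pp_inr, pp_inr, pp_inr]

theorem pp_one : pp (1 : G) = 1 := by
  ext1 x
  obtain ⟨i, k | b⟩ := x
  · rw [pp_inl, one_mul]
    rfl
  · rw [pp_inr]
    rfl

variable (G)

/-- the action of `G` on the group of finitary permutations of `X` -/
def th : G →* MulAut (FinPerm (XX G)) where
  toFun g := cj (pp g)
  map_one' := by
    ext1 s
    apply Subtype.ext
    show pp (1 : G) * (s : Equiv.Perm (XX G)) * (pp (1 : G))⁻¹ = s
    rw [pp_one]
    group
  map_mul' g h := by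
    ext1 s
    apply Subtype.ext
    show pp (g * h) * (s : Equiv.Perm (XX G)) * (pp (g * h))⁻¹ =
      pp g * (pp h * (s : Equiv.Perm (XX G)) * (pp h)⁻¹) * (pp g)⁻¹
    rw [pp_mul]
    group

variable {G}

theorem th_apply (g : G) (s : FinPerm (XX G)) : th G g s = cj (pp g) s := rfl

theorem exists_free (U : G → Set (XX G)) (hU : ∀ g, (U g).Countable) :
    ∃ i : Idx G, ∀ g y, (i, y) ∉ U g := by
  have h1 : ∀ g, ∃ e : ℕ → XX G, U g ⊆ Set.range e := by
    intro g
    exact Set.countable_iff_exists_subset_range.1 (hU g)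
  choose e he using h1
  have h2 : ¬ Function.Surjective (fun z : G × ℕ => (e z.1 z.2).1) :=
    Function.cantor_surjective _
  unfold Function.Surjective at h2
  push Not at h2
  obtain ⟨i, hi⟩ := h2
  refine ⟨i, ?_⟩
  intro g y hy
  obtain ⟨n, hn⟩ := he g hy
  exact hi (g, n) (by rw [hn])

theorem exists_free_one (U : Set (XX G)) (hU : U.Countable) :
    ∃ i : Idx G, ∀ y, (i, y) ∉ U := by
  obtain ⟨i, hi⟩ := exists_free (fun _ : G => U) fun _ => hU
  exact ⟨i, fun y => hi 1 y⟩

theorem fix_of_free (f : EllTwo (FinPerm (XX G)) ℂ) (i : Idx G) (hi : ∀ y, (i, y) ∉ moved f)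
    (s : FinPerm (XX G)) (hs : f s ≠ 0) (y : G ⊕ Bool) : (s : Equiv.Perm (XX G)) (i, y) = (i, y) := by
  by_contra h
  exact hi y ⟨s, hs, h⟩

/-- freeness of the automorphisms `α_g`, `g ≠ 1` -/
theorem free_act (g : G) (hg : g ≠ 1)
    (z : EllTwo (FinPerm (XX G)) ℂ →L[ℂ] EllTwo (FinPerm (XX G)) ℂ) (hz : z ∈ LG (FinPerm (XX G)))
    (h : ∀ x ∈ LG (FinPerm (XX G)), z * x = act (th G) g x * z) :
    z = 0 := by
  refine ext_LG hz (LG (FinPerm (XX G))).toStarSubalgebra.zero_mem ?_
  intro k
  show (z (dl 1)) k = 0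
  by_contra hk
  obtain ⟨i, hi⟩ := exists_free_one (moved (z (dl 1))) (moved_countable _)
  set γ : FinPerm (XX G) := sw (i, Sum.inl 1) (i, Sum.inr true) with hγ
  have h1 := h (lam γ) (lam_mem γ)
  rw [act_lam] at h1
  have h2 := congrArg (fun S : EllTwo (FinPerm (XX G)) ℂ →L[ℂ] EllTwo (FinPerm (XX G)) ℂ =>
    (S (dl 1)) (k * γ)) h1
  have h3 : (z (lam γ (dl 1))) (k * γ) = (z (dl 1)) ((th G g γ)⁻¹ * (k * γ)) := h2
  rw [lam_dl, mul_one, apply_dl z hz, mul_inv_cancel_right] at h3
  rw [h3] at hk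
  have h4 := fix_of_free _ i hi _ hk (Sum.inl 1)
  have h3' : (z (dl 1)) k ≠ 0 := by
    rw [h3]
    exact hk
  have h5 := fix_of_free _ i hi _ h3' (Sum.inr true)
  have h6 : (((th G g γ)⁻¹ * (k * γ) : FinPerm (XX G)) : Equiv.Perm (XX G)) (i, Sum.inl 1) =
      (i, Sum.inl g) := by
    show ((th G g γ : FinPerm (XX G)) : Equiv.Perm (XX G))⁻¹ ((k : Equiv.Perm (XX G))
      ((γ : Equiv.Perm (XX G)) (i, Sum.inl 1))) = (i, Sum.inl g)
    rw [hγ, sw_left, h5, Equiv.Perm.inv_eq_iff_eq, th_apply, cj_sw, pp_inl, pp_inr, mul_one,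
      sw_left]
  rw [h6] at h4
  have h7 := (Prod.ext_iff.1 h4).2
  exact hg (Sum.inl.inj h7)

theorem center_trivial
    (z : EllTwo (FinPerm (XX G)) ℂ →L[ℂ] EllTwo (FinPerm (XX G)) ℂ) (hz : z ∈ LG (FinPerm (XX G)))
    (h : ∀ x ∈ LG (FinPerm (XX G)), z * x = x * z) :
    ∃ c : ℂ, z = c • (1 : EllTwo (FinPerm (XX G)) ℂ →L[ℂ] EllTwo (FinPerm (XX G)) ℂ) := by
  obtain ⟨i, hi⟩ := exists_free_one (moved (z (dl 1))) (moved_countable _)
  refine ⟨(z (dl 1)) 1, ?_⟩
  refine ext_LG hz ?_ ?_
  · exact (LG (FinPerm (XX G))).toStarSubalgebra.smul_mem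
      (LG (FinPerm (XX G))).toStarSubalgebra.one_mem _
  · intro k
    show (z (dl 1)) k = (z (dl 1)) 1 * (dl 1 : EllTwo (FinPerm (XX G)) ℂ) k
    by_cases hk1 : k = 1
    · rw [hk1, dl_self, mul_one]
    · rw [dl_ne _ _ hk1, mul_zero]
      by_contra hk
      have hx : ∃ x0, (k : Equiv.Perm (XX G)) x0 ≠ x0 := by
        by_contra hcon
        push Not at hcon
        apply hk1
        apply Subtype.ext
        ext1 x
        exact hcon x
      obtain ⟨x0, hx0⟩ := hx
      set p : XX G := (i, Sum.inl 1) with hp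
      set γ : FinPerm (XX G) := sw p x0 with hγ
      have h1 := h (lam γ) (lam_mem γ)
      have h2 := congrArg (fun S : EllTwo (FinPerm (XX G)) ℂ →L[ℂ] EllTwo (FinPerm (XX G)) ℂ =>
        (S (dl 1)) (k * γ)) h1
      have h3 : (z (lam γ (dl 1))) (k * γ) = (z (dl 1)) (γ⁻¹ * (k * γ)) := h2
      rw [lam_dl, mul_one, apply_dl z hz, mul_inv_cancel_right] at h3
      have h4 := fix_of_free _ i hi _ (h3 ▸ hk) (Sum.inl 1)
      have h5 : (k : Equiv.Perm (XX G)) x0 = (γ : Equiv.Perm (XX G)) p := by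
        have h6 : ((γ : Equiv.Perm (XX G)))⁻¹ ((k : Equiv.Perm (XX G))
          ((γ : Equiv.Perm (XX G)) p)) = p := h4
        rw [hγ, sw_left, Equiv.Perm.inv_eq_iff_eq] at h6
        exact h6
      rw [hγ, sw_left] at h5
      exact hx0 h5

instance : Infinite (FinPerm (XX G)) := by
  have h1 : Function.Injective (fun i : Idx G => sw ((i, Sum.inr true) : XX G) (i, Sum.inr false)) := by
    intro i j hij
    by_contra hne
    have h2 : (sw ((i, Sum.inr true) : XX G) (i, Sum.inr false) : Equiv.Perm (XX G))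
        (i, Sum.inr true) = (sw ((j, Sum.inr true) : XX G) (j, Sum.inr false) :
        Equiv.Perm (XX G)) (i, Sum.inr true) := by
      have := congrArg (fun s : FinPerm (XX G) => (s : Equiv.Perm (XX G)) (i, Sum.inr true)) hij
      exact this
    rw [sw_left, sw_ne] at h2
    · have := (Prod.ext_iff.1 h2).2
      simp at this
    · intro h
      exact hne (Prod.ext_iff.1 h).1
    · intro h
      exact hne (Prod.ext_iff.1 h).1
  have h2 : Infinite (Idx G) := inferInstance
  exact Infinite.of_injective _ h1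

theorem isIIOne (G : Type u) [Group G] : IsIIOneFactor (LG (FinPerm (XX G))) :=
  ⟨center_trivial, infinite_dim, trG_trace⟩

theorem strictlyOuter (G : Type u) [Group G] :
    IsStrictlyOuter (LG (FinPerm (XX G))) (act (th G)) := by
  intro K _ _ _ J hJ
  refine trivial_of_strictlyOuter0 J hJ (act (th G)) (isAction_act (th G)) ?_
  refine strictlyOuter_of_free (act (th G)) (isAction_act (th G)) (WW (th G))
    (fun g => WW (th G) g⁻¹) (fun g => WW_inv_mul (th G) g) ?_ center_trivial free_act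
  intro g x _
  unfold act
  rw [mul_assoc, WW_inv_mul, mul_one]

/-- every family `(v_g)` of elements of the algebra commutes with a nontrivial transposition that
is fixed by the action -/
theorem exists_fixed (v : G → (EllTwo (FinPerm (XX G)) ℂ →L[ℂ] EllTwo (FinPerm (XX G)) ℂ))
    (hv : ∀ g, v g ∈ LG (FinPerm (XX G))) :
    ∃ a : FinPerm (XX G), a ≠ 1 ∧ (∀ g, th G g a = a) ∧
      ∀ g, v g * lam a = lam a * v g := by
  obtain ⟨i, hi⟩ := exists_free (fun g : G => moved ((v g) (dl 1))) fun g => moved_countable _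
  refine ⟨sw (i, Sum.inr true) (i, Sum.inr false), ?_, ?_, ?_⟩
  · intro h
    have h1 := congrArg (fun s : FinPerm (XX G) => (s : Equiv.Perm (XX G)) (i, Sum.inr true)) h
    have h2 : (sw ((i, Sum.inr true) : XX G) (i, Sum.inr false) : Equiv.Perm (XX G))
        (i, Sum.inr true) = (i, Sum.inr true) := h1
    rw [sw_left] at h2
    have := (Prod.ext_iff.1 h2).2
    simp at this
  · intro g
    rw [th_apply, cj_sw, pp_inr, pp_inr]
  · intro g
    set a : FinPerm (XX G) := sw (i, Sum.inr true) (i, Sum.inr false) with ha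
    have hzm := hv g
    have hcomm : ∀ s : FinPerm (XX G), ((v g) (dl 1)) s ≠ 0 → s * a = a * s := by
      intro s hs
      exact sw_comm _ _ s (fix_of_free _ i (hi g) s hs _) (fix_of_free _ i (hi g) s hs _)
    refine ext_LG ?_ ?_ ?_
    · exact (LG (FinPerm (XX G))).toStarSubalgebra.mul_mem hzm (lam_mem a)
    · exact (LG (FinPerm (XX G))).toStarSubalgebra.mul_mem (lam_mem a) hzm
    · intro k
      show ((v g) (lam a (dl 1))) k = ((v g) (dl 1)) (a⁻¹ * k)
      rw [lam_dl, mul_one, apply_dl _ hzm]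
      by_cases h1 : ((v g) (dl 1)) (k * a⁻¹) = 0
      · by_cases h2 : ((v g) (dl 1)) (a⁻¹ * k) = 0
        · rw [h1, h2]
        · have h3 := hcomm _ h2
          have h4 : k * a⁻¹ = a⁻¹ * k := by
            rw [mul_inv_cancel_left] at h3
            conv_lhs => rw [← h3]
            rw [mul_inv_cancel_right]
          rw [h4]
      · have h3 := hcomm _ h1
        rw [inv_mul_cancel_right] at h3
        have h4 : a⁻¹ * k = k * a⁻¹ := by
          conv_lhs => rw [h3]
          rw [inv_mul_cancel_left]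
        rw [h4]

theorem main (G : Type u) [Group G]
    (v : G → (EllTwo (FinPerm (XX G)) ℂ →L[ℂ] EllTwo (FinPerm (XX G)) ℂ))
    (hv : IsUnitaryFamily (LG (FinPerm (XX G))) v) :
    ∃ x ∈ LG (FinPerm (XX G)), IsFixedBy (act (th G)) v x ∧
      ¬ ∃ c : ℂ, x = c • (1 : EllTwo (FinPerm (XX G)) ℂ →L[ℂ] EllTwo (FinPerm (XX G)) ℂ) := by
  obtain ⟨a, ha1, hafix, hcomm⟩ := exists_fixed v fun g => (hv g).1
  refine ⟨lam a, lam_mem a, ?_, ?_⟩
  · intro g
    rw [act_lam, hafix, hcomm, mul_assoc, (hv g).2.2, mul_one]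
  · rintro ⟨c, hc⟩
    have h2 := congrArg (fun x : EllTwo (FinPerm (XX G)) ℂ →L[ℂ] EllTwo (FinPerm (XX G)) ℂ =>
      (x (dl 1)) a) hc
    have h3 : (lam a (dl 1)) a = c * (dl 1 : EllTwo (FinPerm (XX G)) ℂ) a := h2
    rw [lam_dl, mul_one, dl_self, dl_ne _ _ ha1, mul_zero] at h3
    exact one_ne_zero h3

end example1

end Pool.Agent.V7H46.ECP
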